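import Pool.Agent.Helper42.DB.Goals2

set_option autoImplicit false

namespace Pool.Agent.Helper42.DB.PkMTM

open Set Filter Topology

lemma decomp (θ : ℝ) (w : ℂ) : w = (dt (ee θ) w) • ee θ + (cr (ee θ) w) • tt θ := by
  have h := Real.sin_sq_add_cos_sq θ
  apply Complex.ext
  · simp only [dt, cr, Complex.add_re, Complex.smul_re, ee_re, ee_im, tt_re, smul_eq_mul]
    linear_combination (-w.re) * h
  · simp only [dt, cr, Complex.add_im, Complex.smul_im, ee_re, ee_im, tt_im, smul_eq_mul]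
    linear_combination (-w.im) * h

/-- a flight does not cross an arc -/
lemma nocross {S : Sys} {x y : St S} (h : Fl x y) (l : S.ι) (v : ℝ)
    (hv : v ∈ Icc (S.a l) (S.b l)) (h1 : 0 < dt (ee x.th) (S.g l v - x.pos))
    (h2 : 0 < dt (ee x.th) (y.pos - S.g l v)) : cr (ee x.th) (S.g l v - x.pos) ≠ 0 := by
  intro h0
  obtain ⟨_, _, _, t, ht, hp, hs⟩ := h
  have hd := decomp x.th (S.g l v - x.pos)
  rw [h0, zero_smul, add_zero] at hd
  have hlt : dt (ee x.th) (S.g l v - x.pos) < t := by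
    have e1 : dt (ee x.th) (y.pos - S.g l v) = dt (ee x.th) (y.pos - x.pos)
        - dt (ee x.th) (S.g l v - x.pos) := by
      rw [← dt_sub_right]; congr 1; ring
    have e2 : dt (ee x.th) (y.pos - x.pos) = t := by
      rw [hp, add_sub_cancel_left, dt_smul_right, dt_self, norm_ee]; ring
    rw [e1, e2] at h2
    linarith
  have hY := hs _ ⟨h1, hlt⟩
  rw [← hd, add_sub_cancel] at hY
  exact S.out l v hv hY

lemma crv_drop (hC : G_CRV) (S : Sys) (l : S.ι) (u ε : ℝ) (hε : 0 ≤ ε) (hε' : ε ≤ 1) :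
    dt (ee u) (S.g l (u + ε) - S.g l u) ≤ -(S.r0 * (1 - Real.cos ε)) := by
  rw [(hC (S.crv l) u u (u + ε)).2]
  apply neg_le_neg
  have hcont : Continuous (S.crv l).R := (S.crv l).cont
  have e1 : ∫ t in u..(u + ε), S.r0 * Real.sin (t - u) = S.r0 * (1 - Real.cos ε) := by
    rw [intervalIntegral.integral_const_mul, intervalIntegral.integral_comp_sub_right
      (fun t => Real.sin t), integral_sin]
    simp
  rw [← e1]
  apply intervalIntegral.integral_mono_on (by linarith)
  · apply Continuous.intervalIntegrable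
    fun_prop
  · apply Continuous.intervalIntegrable
    fun_prop
  · intro t ht
    apply mul_le_mul_of_nonneg_right (S.le_R l t)
    apply Real.sin_nonneg_of_nonneg_of_le_pi
    · linarith [ht.1]
    · linarith [ht.2, Real.pi_gt_three]

/-- signed distance of the base point from the tangent -/
noncomputable def ddf (S : Sys) (i l : S.ι) (ω u θ : ℝ) : ℝ :=
  dt (ee (θ - ω)) (S.g i u - S.g l (θ - ω))

lemma ddf_cont (S : Sys) (i l : S.ι) (ω : ℝ) :
    Continuous fun p : ℝ × ℝ => ddf S i l ω p.1 p.2 := by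
  have hGi : Continuous (S.g i) := (S.crv i).continuous
  have hGl : Continuous (S.g l) := (S.crv l).continuous
  unfold ddf
  apply continuous_dt
  · exact continuous_ee.comp (by fun_prop)
  · exact (hGi.comp (by fun_prop)).sub (hGl.comp (by fun_prop))

theorem thm (S : Sys) : G_CRV → G_CONN S → G_MTM S := by
  intro hC hConn a w l v hwa hwa1 hv hLim
  obtain ⟨m, u0, u1, φ0, φ1, hm, hu0, hu1, -, -, tu0, tφ0, tu1, -, hseg⟩ := hLim
  set i := w a with hi
  set j := w (a + 1) with hj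
  set A := S.g i u0 with hA
  set B := S.g j u1 with hB
  set θs := u0 + φ0 with hθs
  have hGi : Continuous (S.g i) := (S.crv i).continuous
  have hGj : Continuous (S.g j) := (S.crv j).continuous
  have hGl : Continuous (S.g l) := (S.crv l).continuous
  have hFl : ∀ z : ℕ → St S, Cyl (2 * a + 1) w z → Fl (z a) (z (a + 1)) :=
    fun z hz => hz.1.2 a (by omega)
  have hpa : ∀ z : ℕ → St S, Cyl (2 * a + 1) w z → (z a).pos = S.g i (z a).u := by
    intro z hz; unfold St.pos; rw [hz.2 a (by omega)]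
  have hpb : ∀ z : ℕ → St S, Cyl (2 * a + 1) w z → (z (a + 1)).pos = S.g j (z (a + 1)).u := by
    intro z hz; unfold St.pos; rw [hz.2 (a + 1) (by omega)]
  have tth : Tendsto (fun q => (m q a).th) atTop (𝓝 θs) := tu0.add tφ0
  -- the limit flight
  have hPA : S.g l v ≠ A := by
    intro h
    exact hwa (S.inj i l u0 hu0 v (Ioo_subset_Icc_self hv) h.symm).1
  have hPB : S.g l v ≠ B := by
    intro h
    exact hwa1 (S.inj j l u1 hu1 v (Ioo_subset_Icc_self hv) h.symm).1
  have hBA : B = A + ‖B - A‖ • ee θs := by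
    have h1 : Tendsto (fun q => S.g j (m q (a + 1)).u) atTop (𝓝 B) :=
      (hGj.tendsto u1).comp tu1
    have h2 : Tendsto (fun q => S.g i (m q a).u + ‖S.g j (m q (a + 1)).u - S.g i (m q a).u‖ •
        ee (m q a).th) atTop (𝓝 (A + ‖B - A‖ • ee θs)) := by
      have h3 : Tendsto (fun q => S.g i (m q a).u) atTop (𝓝 A) := (hGi.tendsto u0).comp tu0
      exact h3.add ((h1.sub h3).norm.smul ((continuous_ee.tendsto θs).comp tth))
    refine tendsto_nhds_unique h1 (h2.congr fun q => ?_)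
    have h4 := (hFl _ (hm q)).length.2
    rw [hpa _ (hm q), hpb _ (hm q)] at h4
    exact h4.symm
  obtain ⟨c, hc0, hc1, hPc⟩ : ∃ c : ℝ, 0 < c ∧ c < 1 ∧ S.g l v = A + c • (B - A) := by
    rw [segment_eq_image'] at hseg
    obtain ⟨c, hc, hc'⟩ := hseg
    have hc'' : A + c • (B - A) = S.g l v := hc'
    refine ⟨c, lt_of_le_of_ne hc.1 ?_, lt_of_le_of_ne hc.2 ?_, hc''.symm⟩
    · rintro rfl
      apply hPA
      rw [← hc'']; simp
    · rintro rfl
      apply hPB
      rw [← hc'']; simp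
  have hT : 0 < ‖B - A‖ := by
    rw [norm_pos_iff, sub_ne_zero]
    rintro h
    apply hPA
    rw [hPc, h]; simp
  set T := ‖B - A‖ with hTdef
  have hPs : S.g l v = A + (c * T) • ee θs := by
    rw [hPc]
    have : B - A = T • ee θs := by rw [sub_eq_iff_eq_add']; exact hBA
    rw [this, smul_smul]
  -- continuity box for positions
  have hf1 : 0 < dt (ee θs) (S.g l v - A) := by
    rw [hPs, add_sub_cancel_left, dt_smul_right, dt_self, norm_ee]
    positivity
  have hf2 : 0 < dt (ee θs) (B - S.g l v) := by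
    have : B - S.g l v = ((1 - c) * T) • ee θs := by
      rw [hPs, sub_eq_iff_eq_add]
      nth_rewrite 1 [hBA]
      module
    rw [this, dt_smul_right, dt_self, norm_ee]
    have : 0 < 1 - c := by linarith
    positivity
  have hbox : ∀ᶠ p : ℝ × ℝ × ℝ × ℝ in 𝓝 (u0, u1, θs, v),
      0 < dt (ee p.2.2.1) (S.g l p.2.2.2 - S.g i p.1) ∧
      0 < dt (ee p.2.2.1) (S.g j p.2.1 - S.g l p.2.2.2) := by
    have c1 : Continuous fun p : ℝ × ℝ × ℝ × ℝ => dt (ee p.2.2.1) (S.g l p.2.2.2 - S.g i p.1) := by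
      apply continuous_dt
      · exact continuous_ee.comp (by fun_prop)
      · exact (hGl.comp (by fun_prop)).sub (hGi.comp (by fun_prop))
    have c2 : Continuous fun p : ℝ × ℝ × ℝ × ℝ =>
        dt (ee p.2.2.1) (S.g j p.2.1 - S.g l p.2.2.2) := by
      apply continuous_dt
      · exact continuous_ee.comp (by fun_prop)
      · exact (hGj.comp (by fun_prop)).sub (hGl.comp (by fun_prop))
    have o1 := (isOpen_lt (continuous_const (y := (0 : ℝ))) c1).mem_nhds
      (show (u0, u1, θs, v) ∈ {p : ℝ × ℝ × ℝ × ℝ | 0 < dt (ee p.2.2.1) (S.g l p.2.2.2 - S.g i p.1)}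
        from hf1)
    have o2 := (isOpen_lt (continuous_const (y := (0 : ℝ))) c2).mem_nhds
      (show (u0, u1, θs, v) ∈ {p : ℝ × ℝ × ℝ × ℝ |
        0 < dt (ee p.2.2.1) (S.g j p.2.1 - S.g l p.2.2.2)} from hf2)
    exact Filter.inter_mem o1 o2
  obtain ⟨δ0, hδ0, hball⟩ := Metric.eventually_nhds_iff.mp hbox
  have hball' : ∀ u u' θ v' : ℝ, |u - u0| < δ0 → |u' - u1| < δ0 → |θ - θs| < δ0 →
      |v' - v| < δ0 → 0 < dt (ee θ) (S.g l v' - S.g i u) ∧ 0 < dt (ee θ) (S.g j u' - S.g l v') := by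
    intro u u' θ v' h1 h2 h3 h4
    refine @hball (u, u', θ, v') ?_
    simp only [Prod.dist_eq, Real.dist_eq, max_lt_iff]
    exact ⟨h1, h2, h3, h4⟩
  -- no crossing near the limit
  have hnc : ∀ z : ℕ → St S, Cyl (2 * a + 1) w z → |(z a).u - u0| < δ0 →
      |(z (a + 1)).u - u1| < δ0 → |(z a).th - θs| < δ0 → ∀ v' ∈ Icc (S.a l) (S.b l),
      |v' - v| < δ0 → cr (ee (z a).th) (S.g l v' - (z a).pos) ≠ 0 := by
    intro z hz h1 h2 h3 v' hv' h4
    have h5 := hball' _ _ _ _ h1 h2 h3 h4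
    refine nocross (hFl z hz) l v' hv' ?_ ?_
    · rw [hpa z hz]; exact h5.1
    · rw [hpb z hz]; exact h5.2
  -- eventually the given trajectories are in a box
  have hev : ∀ κ > 0, ∀ᶠ q in atTop, |(m q a).u - u0| < κ ∧ |(m q (a + 1)).u - u1| < κ ∧
      |(m q a).th - θs| < κ := by
    intro κ hκ
    have e1 := Metric.tendsto_nhds.mp tu0 κ hκ
    have e2 := Metric.tendsto_nhds.mp tu1 κ hκ
    have e3 := Metric.tendsto_nhds.mp tth κ hκ
    filter_upwards [e1, e2, e3] with q h1 h2 h3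
    exact ⟨h1, h2, h3⟩
  -- tangency
  have htan : Real.cos (θs - v) = 0 := by
    by_contra hne
    set D := (S.crv l).R v * Real.cos (v - θs) with hD
    have hD0 : D ≠ 0 := by
      have h1 : 0 < (S.crv l).R v := lt_of_lt_of_le S.r0_pos (S.le_R l v)
      have h2 : Real.cos (v - θs) ≠ 0 := by
        rw [← Real.cos_neg, neg_sub]; exact hne
      exact mul_ne_zero h1.ne' h2
    have hder : HasDerivAt (fun v' => D * cr (ee θs) (S.g l v' - A)) (D * D) v := by
      have h1 := (S.crv l).der v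
      have h2 : HasDerivAt (fun v' => cr (ee θs) (S.g l v' - A)) D v := by
        have hre : HasDerivAt (fun v' => (S.g l v').re) (((S.crv l).R v • tt v).re) v :=
          (Complex.reCLM.hasFDerivAt.comp_hasDerivAt v h1)
        have him : HasDerivAt (fun v' => (S.g l v').im) (((S.crv l).R v • tt v).im) v :=
          (Complex.imCLM.hasFDerivAt.comp_hasDerivAt v h1)
        have h3 := ((him.sub_const A.im).const_mul (ee θs).re).sub
          ((hre.sub_const A.re).const_mul (ee θs).im)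
        have h4 : (ee θs).re * ((S.crv l).R v • tt v).im - (ee θs).im * ((S.crv l).R v • tt v).re
            = D := by
          have : (ee θs).re * ((S.crv l).R v • tt v).im - (ee θs).im * ((S.crv l).R v • tt v).re
            = cr (ee θs) ((S.crv l).R v • tt v) := rfl
          rw [this, cr_smul_right, cr_ee_tt]
        rw [h4] at h3
        exact h3
      exact h2.const_mul D
    have hslope := hasDerivAt_iff_tendsto_slope.mp hder
    have hpos : 0 < D * D := mul_self_pos.2 hD0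
    have hevs : ∀ᶠ v' in 𝓝[≠] v, 0 < slope (fun v' => D * cr (ee θs) (S.g l v' - A)) v v' :=
      hslope.eventually (lt_mem_nhds hpos)
    have hzero : cr (ee θs) (S.g l v - A) = 0 := by
      rw [hPs, add_sub_cancel_left, cr_smul_right, cr_self, mul_zero]
    rw [eventually_nhdsWithin_iff] at hevs
    obtain ⟨ε1, hε1, hε1'⟩ := Metric.eventually_nhds_iff.mp hevs
    set ε := min (min (ε1 / 2) (δ0 / 2)) (min (v - S.a l) (S.b l - v)) with hε
    have hεpos : 0 < ε := by
      refine lt_min (lt_min (by linarith) (by linarith)) (lt_min ?_ ?_)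
      · linarith [hv.1]
      · linarith [hv.2]
    have hε_1 : ε ≤ ε1 / 2 := (min_le_left _ _).trans (min_le_left _ _)
    have hε_2 : ε ≤ δ0 / 2 := (min_le_left _ _).trans (min_le_right _ _)
    have hε_3 : ε ≤ v - S.a l := (min_le_right _ _).trans (min_le_left _ _)
    have hε_4 : ε ≤ S.b l - v := (min_le_right _ _).trans (min_le_right _ _)
    have hs1 : D * cr (ee θs) (S.g l (v - ε) - A) < 0 := by
      have hd : dist (v - ε) v < ε1 := by
        rw [Real.dist_eq, abs_lt]
        constructor <;> linarith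
      have hn : v - ε ∈ ({v}ᶜ : Set ℝ) := by
        simp only [mem_compl_iff, mem_singleton_iff]
        intro h; linarith
      have h1 := hε1' hd hn
      rw [slope_def_field, hzero, mul_zero, sub_zero] at h1
      have h2 : v - ε - v < 0 := by linarith
      by_contra h3
      push Not at h3
      have := div_nonpos_of_nonneg_of_nonpos h3 h2.le
      linarith
    have hs2 : 0 < D * cr (ee θs) (S.g l (v + ε) - A) := by
      have hd : dist (v + ε) v < ε1 := by
        rw [Real.dist_eq, abs_lt]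
        constructor <;> linarith
      have hn : v + ε ∈ ({v}ᶜ : Set ℝ) := by
        simp only [mem_compl_iff, mem_singleton_iff]
        intro h; linarith
      have h1 := hε1' hd hn
      rw [slope_def_field, hzero, mul_zero, sub_zero] at h1
      have h2 : 0 < v + ε - v := by linarith
      by_contra h3
      push Not at h3
      have := div_nonpos_of_nonpos_of_nonneg h3 h2.le
      linarith
    have hcv : ∀ v' : ℝ, Tendsto (fun q => D * cr (ee (m q a).th) (S.g l v' - (m q a).pos)) atTop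
        (𝓝 (D * cr (ee θs) (S.g l v' - A))) := by
      intro v'
      have c3 : Continuous fun p : ℝ × ℝ => D * cr (ee p.1) (S.g l v' - S.g i p.2) := by
        apply continuous_const.mul
        apply continuous_cr
        · exact continuous_ee.comp (by fun_prop)
        · exact continuous_const.sub (hGi.comp (by fun_prop))
      have h1 := (c3.tendsto (θs, u0)).comp (tth.prodMk_nhds tu0)
      refine h1.congr fun q => ?_
      simp only [Function.comp]
      rw [hpa _ (hm q)]
    have hq := (((hcv (v - ε)).eventually (gt_mem_nhds hs1)).and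
      ((hcv (v + ε)).eventually (lt_mem_nhds hs2))).and (hev δ0 hδ0)
    obtain ⟨q, ⟨hq1, hq2⟩, hq3, hq4, hq5⟩ := hq.exists
    have hcont : ContinuousOn (fun v' => D * cr (ee (m q a).th) (S.g l v' - (m q a).pos))
        (Icc (v - ε) (v + ε)) := by
      apply Continuous.continuousOn
      apply continuous_const.mul
      exact continuous_cr continuous_const (hGl.sub continuous_const)
    obtain ⟨v', hv', hv'0⟩ := intermediate_value_Icc (by linarith) hcont ⟨hq1.le, hq2.le⟩
    have h0 : cr (ee (m q a).th) (S.g l v' - (m q a).pos) = 0 := by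
      rcases mul_eq_zero.mp hv'0 with h | h
      · exact absurd h hD0
      · exact h
    refine hnc _ (hm q) hq3 hq4 hq5 v' ⟨by linarith [hv'.1], by linarith [hv'.2]⟩ ?_ h0
    rw [abs_lt]
    constructor <;> linarith [hv'.1, hv'.2]
  -- the angle
  obtain ⟨σ, M, hσ, hω⟩ : ∃ (σ : ℝ) (M : ℤ), (σ = 1 ∨ σ = -1) ∧
      θs - v = σ * (Real.pi / 2) + M * (2 * Real.pi) := by
    obtain ⟨k, hk⟩ := Real.cos_eq_zero_iff.mp htan
    rcases Int.even_or_odd' k with ⟨M, hM | hM⟩
    · refine ⟨1, M, Or.inl rfl, ?_⟩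
      rw [hk, hM]; push_cast; ring
    · refine ⟨-1, M + 1, Or.inr rfl, ?_⟩
      rw [hk, hM]; push_cast; ring
  set ω := σ * (Real.pi / 2) + M * (2 * Real.pi) with hωdef
  have hcosω : Real.cos ω = 0 := by rw [← hω]; exact htan
  have heeω : ∀ u : ℝ, ee (u + ω) = ee (u + σ * (Real.pi / 2)) := by
    intro u
    rw [ee_eq_ee_iff]
    have : u + ω - (u + σ * (Real.pi / 2)) = M * (2 * Real.pi) := by rw [hωdef]; ring
    rw [this, Real.cos_int_mul_two_pi]
  -- the distance function
  obtain ⟨dd, hdd⟩ : ∃ dd : ℝ → ℝ → ℝ, ∀ u θ, dd u θ =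
      dt (ee (θ - ω)) (S.g i u - S.g l (θ - ω)) := ⟨ddf S i l ω, fun _ _ => rfl⟩
  have hddc : Continuous fun p : ℝ × ℝ => dd p.1 p.2 := by
    have h1 := ddf_cont S i l ω
    refine h1.congr fun p => ?_
    rw [hdd]; rfl
  have hdd0 : dd u0 θs = 0 := by
    have h1 : θs - ω = v := by rw [← hω]; ring
    have h2 : S.g i u0 - S.g l v = -((c * T) • ee θs) := by rw [hPs]; simp [hA]
    rw [hdd]
    rw [h1, h2, dt_neg_right, dt_smul_right, dt_ee_ee, htan]; simp
  -- the constants
  obtain ⟨ε, hε, hε1, hε2, hεa, hεb⟩ : ∃ ε : ℝ, 0 < ε ∧ ε ≤ 1 ∧ 2 * ε < δ0 ∧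
      S.a l + 2 * ε ≤ v ∧ v + 2 * ε ≤ S.b l := by
    refine ⟨min (min 1 (δ0 / 4)) (min ((v - S.a l) / 2) ((S.b l - v) / 2)), ?_, ?_, ?_, ?_, ?_⟩
    · refine lt_min (lt_min (by norm_num) (by linarith)) (lt_min ?_ ?_)
      · linarith [hv.1]
      · linarith [hv.2]
    · exact (min_le_left _ _).trans (min_le_left _ _)
    · have := (min_le_left (min 1 (δ0 / 4)) (min ((v - S.a l) / 2) ((S.b l - v) / 2))).trans
        (min_le_right _ _)
      linarith
    · have := (min_le_right (min 1 (δ0 / 4)) (min ((v - S.a l) / 2) ((S.b l - v) / 2))).trans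
        (min_le_left _ _)
      linarith
    · have := (min_le_right (min 1 (δ0 / 4)) (min ((v - S.a l) / 2) ((S.b l - v) / 2))).trans
        (min_le_right _ _)
      linarith
  have hcosε : 0 < S.r0 * (1 - Real.cos ε) := by
    apply mul_pos S.r0_pos
    have : Real.cos ε < 1 := by
      rw [← Real.cos_zero]
      exact Real.cos_lt_cos_of_nonneg_of_le_pi le_rfl (by linarith [Real.pi_gt_three]) hε
    linarith
  obtain ⟨κ0, hκ0, hκ0'⟩ : ∃ κ0 > 0, ∀ u θ : ℝ, |u - u0| < κ0 → |θ - θs| < κ0 →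
      |dd u θ| < S.r0 * (1 - Real.cos ε) := by
    have h1 : ∀ᶠ p : ℝ × ℝ in 𝓝 (u0, θs), |dd p.1 p.2| < S.r0 * (1 - Real.cos ε) := by
      have h2 := hddc.abs.tendsto (u0, θs)
      simp only [hdd0, abs_zero] at h2
      exact h2.eventually (gt_mem_nhds hcosε)
    obtain ⟨κ0, hκ0, h3⟩ := Metric.eventually_nhds_iff.mp h1
    refine ⟨κ0, hκ0, fun u θ hu hθ => ?_⟩
    refine @h3 (u, θ) ?_
    simp only [Prod.dist_eq, Real.dist_eq, max_lt_iff]
    exact ⟨hu, hθ⟩
  obtain ⟨κ, hκ, hκa, hκb, hκc, hκ1, hκ2, hκ3, hκ4⟩ : ∃ κ : ℝ, 0 < κ ∧ κ ≤ κ0 ∧ κ ≤ ε ∧ κ ≤ δ0 ∧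
      S.a i + 2 * κ ≤ u0 ∧ u0 + 2 * κ ≤ S.b i ∧ S.a j + 2 * κ ≤ u1 ∧ u1 + 2 * κ ≤ S.b j := by
    have h : ∀ᶠ κ : ℝ in 𝓝[>] 0, κ ≤ κ0 ∧ κ ≤ ε ∧ κ ≤ δ0 ∧ 2 * κ ≤ u0 - S.a i ∧
        2 * κ ≤ S.b i - u0 ∧ 2 * κ ≤ u1 - S.a j ∧ 2 * κ ≤ S.b j - u1 := by
      have key : ∀ b : ℝ, 0 < b → ∀ᶠ κ : ℝ in 𝓝[>] 0, κ ≤ b := fun b hb =>
        (eventually_nhdsWithin_of_eventually_nhds (ge_mem_nhds hb))
      have key2 : ∀ b : ℝ, 0 < b → ∀ᶠ κ : ℝ in 𝓝[>] 0, 2 * κ ≤ b := fun b hb => by
        filter_upwards [key (b / 2) (by linarith)] with κ hκ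
        linarith
      filter_upwards [key κ0 hκ0, key ε hε, key δ0 hδ0, key2 _ (sub_pos.mpr hu0.1),
        key2 _ (sub_pos.mpr hu0.2), key2 _ (sub_pos.mpr hu1.1), key2 _ (sub_pos.mpr hu1.2)]
        with κ h1 h2 h3 h4 h5 h6 h7
      exact ⟨h1, h2, h3, h4, h5, h6, h7⟩
    obtain ⟨κ, ⟨h1, h2, h3, h4, h5, h6, h7⟩, h8⟩ := (h.and self_mem_nhdsWithin).exists
    exact ⟨κ, h8, h1, h2, h3, by linarith, by linarith, by linarith, by linarith⟩
  -- positivity of `dd` in the box
  have hdpos : ∀ z : ℕ → St S, Cyl (2 * a + 1) w z → |(z a).u - u0| < κ →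
      |(z (a + 1)).u - u1| < κ → |(z a).th - θs| < κ → 0 < dd (z a).u (z a).th := by
    intro z hz h1 h2 h3
    by_contra hneg
    push Not at hneg
    set uz := (z a).th - ω with huz
    have huz' : |uz - v| < κ := by
      have : uz - v = (z a).th - θs := by rw [huz, ← hω]; ring
      rw [this]; exact h3
    have hzθ : (z a).th = uz + ω := by rw [huz]; ring
    have hk0 : 0 ≤ dt (ee uz) (S.g l uz - (z a).pos) := by
      have : dt (ee uz) (S.g l uz - (z a).pos) = -dd (z a).u (z a).th := by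
        rw [hpa z hz, hdd]
        rw [← dt_neg_right, neg_sub]
      rw [this]; linarith
    have hk1 : dt (ee uz) (S.g l (uz + ε) - (z a).pos) < 0 := by
      have h4 := crv_drop hC S l uz ε hε.le hε1
      have h5 := hκ0' (z a).u (z a).th (h1.trans_le hκa) (h3.trans_le hκa)
      have h6 : dt (ee uz) (S.g l (uz + ε) - (z a).pos) =
          dt (ee uz) (S.g l (uz + ε) - S.g l uz) - dd (z a).u (z a).th := by
        rw [hpa z hz, hdd]
        rw [← dt_sub_right]; congr 1; ring
      rw [h6]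
      have := (abs_lt.mp h5).1
      linarith
    have hcont : ContinuousOn (fun v' => dt (ee uz) (S.g l v' - (z a).pos)) (Icc uz (uz + ε)) :=
      (continuous_dt continuous_const (hGl.sub continuous_const)).continuousOn
    obtain ⟨v', hv', hv'0⟩ := intermediate_value_Icc' (by linarith) hcont ⟨hk1.le, hk0⟩
    have hv'1 : |v' - v| < δ0 := by
      rw [abs_lt] at huz' ⊢
      constructor <;> linarith [hv'.1, hv'.2, huz'.1, huz'.2]
    have hv'2 : v' ∈ Icc (S.a l) (S.b l) := by
      rw [abs_lt] at huz'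
      constructor <;> linarith [hv'.1, hv'.2, huz'.1, huz'.2]
    refine hnc z hz (h1.trans_le hκc) (h2.trans_le hκc) (h3.trans_le hκc) v' hv'2 hv'1 ?_
    -- parallel
    have h7 : cr (ee (z a).th) (S.g l v' - (z a).pos) = 0 := by
      have hd := decomp uz (S.g l v' - (z a).pos)
      have hv'00 : dt (ee uz) (S.g l v' - (z a).pos) = 0 := hv'0
      rw [hv'00, zero_smul, zero_add] at hd
      rw [hd, cr_smul_right, cr_ee_tt, hzθ]
      rw [show uz - (uz + ω) = -ω by ring, Real.cos_neg, hcosω, mul_zero]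
    exact h7
  -- choice of `z'`
  obtain ⟨q0, hq0⟩ := (hev κ hκ).exists
  have hd1 := hdpos _ (hm q0) hq0.1 hq0.2.1 hq0.2.2
  refine ⟨σ, κ, dd (m q0 a).u (m q0 a).th, hσ, hκ, hd1, ?_⟩
  intro r hr
  have htd : Tendsto (fun q => dd (m q a).u (m q a).th) atTop (𝓝 0) := by
    have h1 := (hddc.tendsto (u0, θs)).comp (tu0.prodMk_nhds tth)
    rw [hdd0] at h1
    exact h1
  obtain ⟨q, hq1, hq2⟩ := ((hev κ hκ).and (htd.eventually (gt_mem_nhds hr.1))).exists
  obtain ⟨Z, hZ, hZ01, hZF⟩ := hConn (2 * a + 1) w (m q) (m q0) (by omega) (hm q) (hm q0)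
  have hZa := hZF a (by omega)
  have hZb := hZF (a + 1) (by omega)
  have mono_box : ∀ (f : ℝ → ℝ) (x0 : ℝ), (MonotoneOn f (Icc 0 1) ∨ AntitoneOn f (Icc 0 1)) →
      |f 0 - x0| < κ → |f 1 - x0| < κ → ∀ t ∈ Icc (0 : ℝ) 1, |f t - x0| < κ := by
    intro f x0 hf h0 h1 t ht
    rw [abs_lt] at h0 h1 ⊢
    rcases hf with hf | hf
    · have e1 := hf ⟨le_rfl, zero_le_one⟩ ht ht.1
      have e2 := hf ht ⟨zero_le_one, le_rfl⟩ ht.2
      constructor <;> linarith
    · have e1 := hf ⟨le_rfl, zero_le_one⟩ ht ht.1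
      have e2 := hf ht ⟨zero_le_one, le_rfl⟩ ht.2
      constructor <;> linarith
  have hb1 : ∀ t ∈ Icc (0 : ℝ) 1, |(Z t a).u - u0| < κ := by
    apply mono_box _ _ hZa.2.1
    · rw [(hZ01 a (by omega)).1]; exact hq1.1
    · rw [(hZ01 a (by omega)).2]; exact hq0.1
  have hb2 : ∀ t ∈ Icc (0 : ℝ) 1, |(Z t (a + 1)).u - u1| < κ := by
    apply mono_box _ _ hZb.2.1
    · rw [(hZ01 (a + 1) (by omega)).1]; exact hq1.2.1
    · rw [(hZ01 (a + 1) (by omega)).2]; exact hq0.2.1
  have hb3 : ∀ t ∈ Icc (0 : ℝ) 1, |(Z t a).th - θs| < κ := by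
    apply mono_box _ _ (hZa.2.2 (by omega))
    · rw [(hZ01 a (by omega)).1]; exact hq1.2.2
    · rw [(hZ01 a (by omega)).2]; exact hq0.2.2
  have hcontZ : ContinuousOn (fun t => dd (Z t a).u (Z t a).th) (Icc 0 1) := by
    have h1 : ContinuousOn (fun t => ((Z t a).u, (Z t a).th)) (Icc 0 1) :=
      hZa.1.cu.prodMk (hZa.1.cu.add hZa.1.cφ)
    have h2 := hddc.comp_continuousOn h1
    exact h2
  have h0r : dd (Z 0 a).u (Z 0 a).th < r := by
    rw [(hZ01 a (by omega)).1]; exact hq2
  have h1r : r < dd (Z 1 a).u (Z 1 a).th := by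
    rw [(hZ01 a (by omega)).2]; exact hr.2
  obtain ⟨t, ht, htr⟩ := intermediate_value_Icc zero_le_one hcontZ ⟨h0r.le, h1r.le⟩
  have htr' : dd (Z t a).u (Z t a).th = r := htr
  have hzt := hZ t ht
  have hbt1 := hb1 t ht
  have hbt2 := hb2 t ht
  have hbt3 := hb3 t ht
  refine ⟨Z t, hzt, ?_⟩
  set uz := (Z t a).th - ω with huz
  have huz' : |uz - v| < κ := by
    have : uz - v = (Z t a).th - θs := by rw [huz, ← hω]; ring
    rw [this]; exact hbt3
  have hzθ : (Z t a).th = uz + ω := by rw [huz]; ring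
  have habs := abs_lt.mp huz'
  refine ⟨uz, ⟨by linarith [habs.1], by linarith [habs.2]⟩, ?_, ?_, ?_, ?_⟩
  · -- the point is on the open flight
    obtain ⟨_, _, _, τ, hτ, hp, hs⟩ := hFl _ hzt
    have hpos5 := hball' _ _ _ uz (hbt1.trans_le hκc) (hbt2.trans_le hκc) (hbt3.trans_le hκc)
      (huz'.trans_le hκc)
    set X := S.g l uz + r • ee uz with hX
    have hX1 : dt (ee uz) (X - (Z t a).pos) = 0 := by
      have : X - (Z t a).pos = r • ee uz - (S.g i (Z t a).u - S.g l uz) := by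
        rw [hX, hpa _ hzt]; ring
      rw [this, dt_sub_right, dt_smul_right, dt_self, norm_ee]
      have h8 : dt (ee uz) (S.g i (Z t a).u - S.g l uz) = r := by
        rw [← htr', hdd]
      rw [h8]; ring
    have hX2 : X - (Z t a).pos = (dt (ee (Z t a).th) (X - (Z t a).pos)) • ee (Z t a).th := by
      have hcr : cr (ee (Z t a).th) (X - (Z t a).pos) = 0 := by
        have hd := decomp uz (X - (Z t a).pos)
        rw [hX1, zero_smul, zero_add] at hd
        rw [hd, cr_smul_right, cr_ee_tt, hzθ]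
        rw [show uz - (uz + ω) = -ω by ring, Real.cos_neg, hcosω, mul_zero]
      have hd := decomp (Z t a).th (X - (Z t a).pos)
      rw [hcr, zero_smul, add_zero] at hd
      exact hd
    have hsval : dt (ee (Z t a).th) (X - (Z t a).pos) =
        dt (ee (Z t a).th) (S.g l uz - S.g i (Z t a).u) := by
      have : X - (Z t a).pos = (S.g l uz - S.g i (Z t a).u) + r • ee uz := by
        rw [hX, hpa _ hzt]; ring
      rw [this, dt_add_right, dt_smul_right, dt_ee_ee, hzθ,
        show uz - (uz + ω) = -ω by ring, Real.cos_neg, hcosω]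
      ring
    set s := dt (ee (Z t a).th) (X - (Z t a).pos) with hsdef
    have hs0 : 0 < s := by rw [hsval]; exact hpos5.1
    have hsτ : s < τ := by
      have h9 := hpos5.2
      have e2 : dt (ee (Z t a).th) (S.g j (Z t (a + 1)).u - S.g l uz) = τ - s := by
        have e3 : S.g j (Z t (a + 1)).u - S.g l uz = ((Z t (a + 1)).pos - (Z t a).pos) -
            (S.g l uz - S.g i (Z t a).u) := by
          rw [hpa _ hzt, hpb _ hzt]; ring
        rw [e3, dt_sub_right, ← hsval, hp, add_sub_cancel_left, dt_smul_right, dt_self, norm_ee]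
        ring
      rw [e2] at h9
      linarith
    rw [openSegment_eq_image']
    refine ⟨s / τ, ⟨by positivity, by rw [div_lt_one hτ]; exact hsτ⟩, ?_⟩
    have e4 : (Z t (a + 1)).pos - (Z t a).pos = τ • ee (Z t a).th := by rw [hp]; ring
    simp only []
    rw [e4, smul_smul, div_mul_cancel₀ _ hτ.ne', ← hX2]
    ring
  · rw [← heeω uz, hzθ]
  · rw [hzt.2 a (by omega)]
    have := abs_lt.mp hbt1
    constructor
    · linarith [this.1]
    · linarith [this.2]
  · rw [hzt.2 (a + 1) (by omega)]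
    have := abs_lt.mp hbt2
    constructor
    · linarith [this.1]
    · linarith [this.2]

end Pool.Agent.Helper42.DB.PkMTM
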